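import Pool.Agent.T9h75.SO.Spec

/-!
# SO, piece (pnp1): if `NP` relative to the oracle is `P` relative to the oracle, then `NP = P`

Author: helper67.
-/

set_option autoImplicit false

namespace Pool.Agent.T9h67.SO

open Turing Computability N68a2faeb N793a5b8e Pool.Agent.H583R2
open Pool.Agent.T9h49.SC hiding found act stp st upd badN RK RN KK NN Good
open Pool.Agent.T9h21.UB
open Pool.Agent.T9h75.SO

theorem isPolyTime_of_pfB {L : List Bool → Bool} (h : PF L) : IsPolyTime L := by
  refine poly_of_pf _ _ L (F := fun y => [L (uL y)])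
    (PF.cons (h.comp (pf_uL PF.id)) (PF.const [])) ?_
  intro x
  rw [encode_list, uL_eL]
  rfl

section
variable (p : Polynomial ℕ) (R : List Bool × List Bool → Bool)

/-- `u` is a certificate of `x` -/
def chk (x u : List Bool) : Bool := decide (u.length ≤ p.eval x.length) && R (x, u)

open Classical in
/-- prefixes of certificates -/
noncomputable def Pre : DecisionProblem := fun z =>
  decide (∃ v, chk p R (uP z).1 ((uP z).2 ++ v) = true)

/-- one step of the search -/
def stp1 (V : List Bool × List Bool → Bool) (τ x u : List Bool) : List Bool :=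
  if chk p R x u then u else u ++ [V (eP x (u ++ [true]), τ)]

theorem Pre_eP (x u : List Bool) : Pre p R (eP x u) = true ↔ ∃ v, chk p R x (u ++ v) = true := by
  classical
  unfold Pre
  rw [uP_eP, decide_eq_true_iff]

variable {p R}

theorem pf_chk (hR : PF R) {α : Type} [TEnc α] {x u : α → List Bool} (hx : PF x) (hu : PF u) :
    PF (fun a => chk p R (x a) (u a)) :=
  PF.and (PF.le (PF.length hu) (pf_eval (PF.length hx) p)) (hR.comp (PF.pair hx hu))

theorem Pre_np (hR : PF R) : Pre p R ∈ NP := by
  classical
  refine mem_np_of (R := fun q => chk p R (uP q.1).1 ((uP q.1).2 ++ q.2))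
    (pf_chk hR (PF.fst' (pf_uP PF.fst)) (PF.append (PF.snd' (pf_uP PF.fst)) PF.snd))
    (b := fun z => p.eval (uP z).1.length) (pb_eval (PF.fst' (pf_uP PF.id)) p) ?_ ?_
  · intro z v hv
    unfold Pre
    rw [decide_eq_true_iff]
    exact ⟨v, hv⟩
  · intro z hz
    unfold Pre at hz
    rw [decide_eq_true_iff] at hz
    obtain ⟨v, hv⟩ := hz
    refine ⟨v, ?_, hv⟩
    unfold chk at hv
    rw [Bool.and_eq_true, decide_eq_true_eq, List.length_append] at hv
    omega

theorem search {V : List Bool × List Bool → Bool} {τ x : List Bool}
    (hV : ∀ u : List Bool, u.length ≤ p.eval x.length → Pre p R (eP x u) = V (eP x u, τ))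
    (hx : Pre p R (eP x []) = true) : ∀ j, j ≤ p.eval x.length →
      chk p R x ((stp1 p R V τ x)^[j] []) = true ∨
        (((stp1 p R V τ x)^[j] []).length = j ∧
          Pre p R (eP x ((stp1 p R V τ x)^[j] [])) = true) := by
  intro j
  induction j with
  | zero => intro _; exact Or.inr ⟨rfl, hx⟩
  | succ j ih =>
    intro hj
    rw [Function.iterate_succ_apply']
    set u := (stp1 p R V τ x)^[j] [] with hu
    by_cases hc : chk p R x u = true
    · left
      unfold stp1
      rw [if_pos hc]
      exact hc
    · right
      rcases ih (by omega) with h | ⟨h1, h2⟩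
      · exact absurd h hc
      · unfold stp1
        rw [if_neg hc]
        refine ⟨by rw [List.length_append, h1]; rfl, ?_⟩
        rw [Pre_eP] at h2
        obtain ⟨v, hv⟩ := h2
        have h3 : (u ++ [true]).length ≤ p.eval x.length := by
          rw [List.length_append, h1]
          exact hj
        rw [← hV _ h3]
        rcases hb : Pre p R (eP x (u ++ [true])) with _ | _
        · rw [Pre_eP]
          rcases v with _ | ⟨b, v⟩
          · rw [List.append_nil] at hv
            exact absurd hv hc
          · rcases b with _ | _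
            · exact ⟨v, by rw [List.append_assoc]; exact hv⟩
            · exfalso
              rw [← Bool.not_eq_true, Pre_eP] at hb
              exact hb ⟨v, by rw [List.append_assoc]; exact hv⟩
        · exact hb

end

theorem two_pow_lg (N : ℕ) (hN : 1 ≤ N) : 2 ^ (lg N + 1) ≤ 4 * N := by
  have h1 : 0 < lg N := lt_lg.mpr (by simpa using hN)
  have h2 : 2 ^ (lg N - 1) ≤ N := lt_lg.mp (by omega)
  have h3 : 2 ^ (lg N + 1) = 4 * 2 ^ (lg N - 1) := by
    obtain ⟨m, hm⟩ : ∃ m, lg N = m + 1 := ⟨lg N - 1, by omega⟩
    rw [hm, Nat.add_sub_cancel, pow_succ, pow_succ]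
    ring
  omega

theorem pnp1 : S_sim → S_pnp1 := by
  intro hsim t hT L hL
  obtain ⟨p, R, hR, hL⟩ := hL
  have hR := pf_of_isPolyTime2 hR
  obtain ⟨V, k, hV, hVk⟩ := hsim t (Pre p R) (hT _ (np_sub_rel (Pre_np hR) _))
  set N : List Bool → ℕ := fun x => (6 * x.length + 1 + 3 * p.eval x.length + 2) ^ k with hN
  have hpe : PF (fun x : List Bool => p.eval x.length) := pf_eval (PF.length PF.id) p
  have hNp : PF N := by
    refine pf_powK ?_ k
    exact PF.add (PF.add (PF.add (PF.mul (PF.const 6) (PF.length PF.id)) (PF.const 1))
      (PF.mul (PF.const 3) hpe)) (PF.const 2)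
  set L' : List Bool → Bool := fun x => (List.range (4 * N x)).any
    (fun i => chk p R x ((stp1 p R V (str i) x)^[p.eval x.length] [])) with hL'
  have hpf : PF L' := by
    refine PF.any (l := fun x => List.range (4 * N x))
      (f := fun x i => chk p R x ((stp1 p R V (str i) x)^[p.eval x.length] []))
      (PF.range (PF.mul (PF.const 4) hNp)) ?_
    refine pf_chk hR PF.fst ?_
    refine PF.iterateAdd (n := fun a : List Bool × ℕ => p.eval a.1.length) (s := fun _ => [])
      (f := fun a u => stp1 p R V (str a.2) a.1 u) (hpe.comp PF.fst) (PF.const _) ?_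
      (inc := fun _ => 4) (bnd := fun _ => 1) (PB.const 4) (PB.const 1) ?_
    · have hx : PF (fun a : (List Bool × ℕ) × List Bool => a.1.1) := PF.fst' PF.fst
      have hi : PF (fun a : (List Bool × ℕ) × List Bool => str a.1.2) :=
        PF.str (PF.snd' PF.fst)
      have hu : PF (fun a : (List Bool × ℕ) × List Bool => a.2) := PF.snd
      exact PF.ite (pf_chk hR hx hu) hu (PF.append hu (PF.cons (hV.comp (PF.pair
        (pf_eP hx (PF.append hu (PF.const [true]))) hi)) (PF.const [])))
    · intro a u
      unfold stp1
      split_ifs with h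
      · exact le_trans (Nat.le_add_right _ _) (le_max_left _ _)
      · exact (sz_snoc _ _).trans (le_max_left _ _)
  have heq : L = L' := by
    funext x
    rw [Bool.eq_iff_iff, hL x, hL']
    dsimp only
    rw [List.any_eq_true]
    constructor
    · rintro ⟨w, hw, hw'⟩
      have hNx : 1 ≤ N x := Nat.one_le_pow _ _ (by omega)
      refine ⟨idx (pr t (lg (N x))), ?_, ?_⟩
      · rw [List.mem_range]
        have h1 := idx_lt (pr t (lg (N x)))
        rw [pr_length] at h1
        have h2 := two_pow_lg (N x) hNx
        omega
      · rw [str_idx]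
        have h1 : ∀ u : List Bool, u.length ≤ p.eval x.length →
            Pre p R (eP x u) = V (eP x u, pr t (lg (N x))) := by
          intro u hu
          refine hVk _ _ ?_
          rw [eP_length, hN]
          dsimp only
          exact Nat.pow_le_pow_left (by omega) _
        have h2 : Pre p R (eP x []) = true := by
          rw [Pre_eP]
          refine ⟨w, ?_⟩
          unfold chk
          rw [Bool.and_eq_true, decide_eq_true_eq]
          exact ⟨hw, hw'⟩
        rcases search h1 h2 _ le_rfl with h3 | ⟨h3, h4⟩
        · exact h3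
        · rw [Pre_eP] at h4
          obtain ⟨v, hv⟩ := h4
          have h5 : v = [] := by
            have h6 := hv
            unfold chk at h6
            rw [Bool.and_eq_true, decide_eq_true_eq, List.length_append, h3] at h6
            exact List.eq_nil_of_length_eq_zero (by omega)
          rw [h5, List.append_nil] at hv
          exact hv
    · rintro ⟨i, _, hi⟩
      unfold chk at hi
      rw [Bool.and_eq_true, decide_eq_true_eq] at hi
      exact ⟨_, hi.1, hi.2⟩
  rw [heq]
  exact isPolyTime_of_pfB hpf

end Pool.Agent.T9h67.SO
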