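import Pool.Agent.T9h75.SO.Spec

/-!
# SO, piece (red): the oracle is reducible to the language of the decisions

Author: helper67.
-/

set_option autoImplicit false

namespace Pool.Agent.T9h67.SO

open Turing Computability N68a2faeb N793a5b8e Pool.Agent.H583R2
open Pool.Agent.T9h49.SC hiding found act stp st upd badN RK RN KK NN Good
open Pool.Agent.T9h21.UB
open Pool.Agent.T9h75.SO

/-- the query -/
def qR (u : List Bool × List Bool) : List Bool :=
  if decide (min (2 ^ u.2.length) (u.1.length + 1) ≤ u.1.length) then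
    eP (List.replicate (min (2 ^ u.2.length) (u.1.length + 1)) true) u.2
  else []

/-- the decision -/
def dR (u : List Bool × List Bool) : Bool :=
  (u.1 == List.replicate (min (2 ^ (lg u.1.length - 1)) (u.1.length + 1)) true) &&
    (u.2.take (lg u.1.length)).getD (lg u.1.length - 1) false

theorem pf_qR : PF qR := by
  have h : PF (fun u : List Bool × List Bool => min (2 ^ u.2.length) (u.1.length + 1)) :=
    pf_cexp (PF.length PF.snd) (PF.succ (PF.length PF.fst))
  exact PF.ite (PF.le h (PF.length PF.fst)) (pf_eP (PF.replicate h (PF.const true)) PF.snd)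
    (PF.const [])

theorem pf_dR (h : PF lg) : PF dR := by
  have h1 : PF (fun u : List Bool × List Bool => lg u.1.length) := h.comp (PF.length PF.fst)
  have h2 : PF (fun u : List Bool × List Bool =>
      min (2 ^ (lg u.1.length - 1)) (u.1.length + 1)) :=
    pf_cexp (PF.pred h1) (PF.succ (PF.length PF.fst))
  exact PF.and (PF.beqStr PF.fst (PF.replicate h2 (PF.const true)))
    (PF.listGetD (PF.pred h1) (PF.take h1 PF.snd) (PF.const false))

theorem qR_eq {z a : List Bool} (h : 2 ^ a.length ≤ z.length) :
    qR (z, a) = eP (List.replicate (2 ^ a.length) true) a := by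
  have h1 : min (2 ^ a.length) (z.length + 1) = 2 ^ a.length := min_eq_left (by omega)
  unfold qR
  dsimp only
  rw [h1, if_pos (by simpa using h)]

theorem lg_two_pow (j : ℕ) : lg (2 ^ j) = j + 1 := by
  unfold lg
  exact Nat.size_pow

theorem DD_query (cd : ℕ → ℕ → Bool) (j : ℕ) :
    DD cd (eP (List.replicate (2 ^ j) true) (pr (tt cd) j)) = tt cd j := by
  unfold DD
  rw [uP_eP]
  dsimp only
  rw [List.length_replicate, lg_two_pow]
  have h1 : decide (1 ≤ 2 ^ j) = true := decide_eq_true Nat.one_le_two_pow
  rw [h1, Bool.true_and, Nat.add_sub_cancel, ← pfx_eq]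
  rfl

theorem answers_pr (cd : ℕ → ℕ → Bool) (z : List Bool) : ∀ n, n ≤ lg z.length →
    oracleAnswers qR (DD cd) z n = pr (tt cd) n := by
  intro n
  induction n with
  | zero => intro _; rfl
  | succ n ih =>
    intro hn
    have h1 := ih (by omega)
    have h2 : 2 ^ n ≤ z.length := lt_lg.mp (by omega)
    have h3 : (pr (tt cd) n).length = n := pr_length _ _
    rw [oracleAnswers, h1, qR_eq (by rw [h3]; exact h2), h3, DD_query]
    unfold pr
    rw [List.range_succ, List.map_append]
    rfl

theorem lg_le_self (n : ℕ) : lg n ≤ n := Nat.size_le.mpr Nat.lt_two_pow_self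

theorem red : S_pf → S_red := by
  classical
  intro hpf cd
  refine ⟨qR, dR, Polynomial.X, isPolyTimeL_of_pf pf_qR, isPolyTime_of_pf2 (pf_dR hpf.1),
    fun z => ?_⟩
  rw [Polynomial.eval_X]
  have h1 : (oracleAnswers qR (DD cd) z z.length).take (lg z.length) =
      pr (tt cd) (lg z.length) := by
    rw [oracleAnswers_eq, answers_take _ _ (lg_le_self _), ← oracleAnswers_eq]
    exact answers_pr cd z _ le_rfl
  unfold dR
  dsimp only
  rw [h1]
  rw [Bool.eq_iff_iff]
  unfold OO
  rw [decide_eq_true_iff, Bool.and_eq_true, beq_iff_eq]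
  constructor
  · rintro ⟨J, hJ, hJ'⟩
    have h2 : z.length = 2 ^ J := by rw [hJ, List.length_replicate]
    have h3 : lg z.length = J + 1 := by rw [h2, lg_two_pow]
    rw [h3, Nat.add_sub_cancel]
    refine ⟨?_, ?_⟩
    · rw [h2, min_eq_left (by omega)]
      exact hJ
    · rw [pr_getD _ (by omega)]
      exact hJ'
  · rintro ⟨h2, h3⟩
    have h4 : z.length = min (2 ^ (lg z.length - 1)) (z.length + 1) := by
      conv_lhs => rw [h2, List.length_replicate]
    have h5 : z.length = 2 ^ (lg z.length - 1) := by omega
    have h6 : 0 < lg z.length := by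
      rw [lt_lg, pow_zero]
      have : 1 ≤ 2 ^ (lg z.length - 1) := Nat.one_le_two_pow
      omega
    refine ⟨lg z.length - 1, ?_, ?_⟩
    · rw [← h5] at h2 ⊢
      rw [min_eq_left (by omega)] at h2
      exact h2
    · rw [pr_getD _ (by omega)] at h3
      exact h3

end Pool.Agent.T9h67.SO
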