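import Pool.Agent.T9h67.SO.Red

/-!
# SO, piece (tr): Turing reductions to the oracle are Turing reductions to the decisions

Author: helper67.
-/

set_option autoImplicit false

namespace Pool.Agent.T9h67.SO

open Turing Computability N68a2faeb N793a5b8e Pool.Agent.H583R2
open Pool.Agent.T9h49.SC hiding found act stp st upd badN RK RN KK NN Good
open Pool.Agent.T9h21.UB
open Pool.Agent.T9h75.SO

/-- the query -/
def qT (k : ℕ) (u : List Bool × List Bool) : List Bool :=
  if decide (min (2 ^ u.2.length) ((u.1.length + 2) ^ k + 1) ≤ (u.1.length + 2) ^ k) then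
    eP (List.replicate (min (2 ^ u.2.length) ((u.1.length + 2) ^ k + 1)) true) u.2
  else []

/-- the decision -/
def dT (k : ℕ) (V : List Bool × List Bool → Bool) (u : List Bool × List Bool) : Bool :=
  V (u.1, u.2.take (lg ((u.1.length + 2) ^ k)))

theorem pf_pw (k : ℕ) : PF (fun u : List Bool × List Bool => (u.1.length + 2) ^ k) :=
  pf_powK (PF.add (PF.length PF.fst) (PF.const 2)) k

theorem pf_qT (k : ℕ) : PF (qT k) := by
  have h : PF (fun u : List Bool × List Bool =>
      min (2 ^ u.2.length) ((u.1.length + 2) ^ k + 1)) :=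
    pf_cexp (PF.length PF.snd) (PF.succ (pf_pw k))
  exact PF.ite (PF.le h (pf_pw k)) (pf_eP (PF.replicate h (PF.const true)) PF.snd)
    (PF.const [])

theorem pf_dT (h : PF lg) (k : ℕ) {V : List Bool × List Bool → Bool} (hV : PF V) :
    PF (dT k V) :=
  hV.comp (PF.pair PF.fst (PF.take (h.comp (pf_pw k)) PF.snd))

theorem qT_eq {k : ℕ} {v a : List Bool} (h : 2 ^ a.length ≤ (v.length + 2) ^ k) :
    qT k (v, a) = eP (List.replicate (2 ^ a.length) true) a := by
  have h1 : min (2 ^ a.length) ((v.length + 2) ^ k + 1) = 2 ^ a.length :=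
    min_eq_left (by omega)
  unfold qT
  dsimp only
  rw [h1, if_pos (by simpa using h)]

theorem answersT (cd : ℕ → ℕ → Bool) (k : ℕ) (v : List Bool) :
    ∀ n, n ≤ lg ((v.length + 2) ^ k) →
    oracleAnswers (qT k) (DD cd) v n = pr (tt cd) n := by
  intro n
  induction n with
  | zero => intro _; rfl
  | succ n ih =>
    intro hn
    have h1 := ih (by omega)
    have h2 : 2 ^ n ≤ (v.length + 2) ^ k := lt_lg.mp (by omega)
    have h3 : (pr (tt cd) n).length = n := pr_length _ _
    rw [oracleAnswers, h1, qT_eq (by rw [h3]; exact h2), h3, DD_query]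
    unfold pr
    rw [List.range_succ, List.map_append]
    rfl

theorem tr : S_sim → S_pf → ∀ (cd : ℕ → ℕ → Bool) (M : DecisionProblem),
    TuringReducible M (OO (tt cd)) → TuringReducible M (DD cd) := by
  intro hsim hpf cd M hM
  obtain ⟨V, k, hV, hVk⟩ := hsim (tt cd) M hM
  refine ⟨qT k, dT k V, (Polynomial.X + 2) ^ k, isPolyTimeL_of_pf (pf_qT k),
    isPolyTime_of_pf2 (pf_dT hpf.1 k hV), fun v => ?_⟩
  have e : ((Polynomial.X + 2 : Polynomial ℕ) ^ k).eval v.length = (v.length + 2) ^ k := by
    simp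
  rw [e]
  have h1 : (oracleAnswers (qT k) (DD cd) v ((v.length + 2) ^ k)).take
      (lg ((v.length + 2) ^ k)) = pr (tt cd) (lg ((v.length + 2) ^ k)) := by
    rw [oracleAnswers_eq, answers_take _ _ (lg_le_self _), ← oracleAnswers_eq]
    exact answersT cd k v _ le_rfl
  unfold dT
  dsimp only
  rw [h1]
  exact hVk v _ le_rfl

end Pool.Agent.T9h67.SO
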